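import Pool.Agent.Lib.MP_305fdd_al.Fr.A.Lin

/-!
# MP_305fdd_al, F_r, section AP, part 2: initial forms of polynomials

A weight `w'` which orders the monomials of finitely many homogeneous relations in the same way as
`w` has no relation with a single initial term if `w` has none.
-/

set_option autoImplicit false
set_option linter.unusedSectionVars false

namespace Pool.Agent.FrA

open scoped Classical
open MvPolynomial

variable {σ k K : Type} [Field k] [Field K] [Algebra k K]

/-- the weight of an exponent -/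
noncomputable def wt {Γ : Type} [AddCommGroup Γ] (w : σ → Γ) (a : σ →₀ ℕ) : Γ :=
  Finsupp.weight w a

theorem wt_add {Γ : Type} [AddCommGroup Γ] (w : σ → Γ) (a b : σ →₀ ℕ) :
    wt w (a + b) = wt w a + wt w b := map_add _ _ _

theorem wt_map {Γ Γ' : Type} [AddCommGroup Γ] [AddCommGroup Γ'] (L : Γ →+ Γ') (w : σ → Γ)
    (a : σ →₀ ℕ) : wt (fun i => L (w i)) a = L (wt w a) := by
  unfold wt
  rw [Finsupp.weight_apply, Finsupp.weight_apply, Finsupp.sum, Finsupp.sum, map_sum]
  refine Finset.sum_congr rfl fun i _ => ?_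
  rw [map_nsmul]

/-- homogeneous relations of degree `D` -/
def Jr (k : Type) {σ K : Type} [Field k] [Field K] [Algebra k K] (F : σ → K) (D : ℕ) :
    Submodule k (MvPolynomial σ k) where
  carrier := {g | (∀ a, coeff a g ≠ 0 → a.degree = D) ∧ aeval F g = 0}
  zero_mem' := ⟨fun a ha => absurd (coeff_zero a) ha, map_zero _⟩
  add_mem' := by
    rintro g h ⟨hg1, hg2⟩ ⟨hh1, hh2⟩
    refine ⟨fun a ha => ?_, by rw [map_add, hg2, hh2, add_zero]⟩
    by_cases h0 : coeff a g = 0
    · refine hh1 a fun h => ha ?_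
      rw [coeff_add, h0, h, add_zero]
    · exact hg1 a h0
  smul_mem' := by
    rintro c g ⟨hg1, hg2⟩
    refine ⟨fun a ha => hg1 a fun h => ha ?_, by rw [map_smul, hg2, smul_zero]⟩
    rw [coeff_smul, h, smul_zero]

/-- no homogeneous relation has a single initial term -/
def HTrop (k : Type) {σ K Γ : Type} [Field k] [Field K] [Algebra k K] [AddCommGroup Γ]
    [LinearOrder Γ] (F : σ → K) (w : σ → Γ) : Prop :=
  ∀ D, ∀ g ∈ Jr k F D, ∀ a, coeff a g ≠ 0 → ∃ b, coeff b g ≠ 0 ∧ b ≠ a ∧ wt w b ≤ wt w a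

/-- initial form of a polynomial -/
noncomputable def iniP {Γ : Type} [AddCommGroup Γ] [LinearOrder Γ] (w : σ → Γ)
    (p : MvPolynomial σ k) : MvPolynomial σ k :=
  ∑ a ∈ p.support.filter (fun a => ∀ b, coeff b p ≠ 0 → wt w a ≤ wt w b), monomial a (coeff a p)

section

variable {Γ Γ' : Type} [AddCommGroup Γ] [LinearOrder Γ] [IsOrderedAddMonoid Γ]
  [AddCommGroup Γ'] [LinearOrder Γ'] [IsOrderedAddMonoid Γ']

omit [IsOrderedAddMonoid Γ] in
theorem coeff_iniP (w : σ → Γ) (p : MvPolynomial σ k) (a : σ →₀ ℕ) :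
    coeff a (iniP w p) = if ∀ b, coeff b p ≠ 0 → wt w a ≤ wt w b then coeff a p else 0 := by
  unfold iniP
  rw [coeff_sum]
  simp only [coeff_monomial]
  rw [Finset.sum_ite_eq' (p.support.filter _) a (fun a => coeff a p)]
  by_cases h1 : ∀ b, coeff b p ≠ 0 → wt w a ≤ wt w b
  · rw [if_pos h1]
    by_cases h2 : coeff a p = 0
    · rw [h2]
      split_ifs <;> rfl
    · rw [if_pos]
      exact Finset.mem_filter.mpr ⟨mem_support_iff.mpr h2, h1⟩
  · rw [if_neg h1, if_neg]
    intro h2
    exact h1 (Finset.mem_filter.mp h2).2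

omit [IsOrderedAddMonoid Γ] [IsOrderedAddMonoid Γ'] in
theorem iniP_congr (w : σ → Γ) (w' : σ → Γ') (p : MvPolynomial σ k)
    (h : ∀ a b, coeff a p ≠ 0 → coeff b p ≠ 0 → (wt w a ≤ wt w b ↔ wt w' a ≤ wt w' b)) :
    iniP w p = iniP w' p := by
  ext a
  rw [coeff_iniP, coeff_iniP]
  by_cases h2 : coeff a p = 0
  · rw [h2, ite_self, ite_self]
  · have h3 : (∀ b, coeff b p ≠ 0 → wt w a ≤ wt w b) ↔ ∀ b, coeff b p ≠ 0 → wt w' a ≤ wt w' b :=
      forall_congr' fun b => ⟨fun h4 h5 => (h a b h2 h5).mp (h4 h5),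
        fun h4 h5 => (h a b h2 h5).mpr (h4 h5)⟩
    simp only [h3]

theorem iniP_monomial_mul (w : σ → Γ) (p : MvPolynomial σ k) (u : σ →₀ ℕ) {c : k} (hc : c ≠ 0) :
    iniP w (monomial u c * p) = monomial u c * iniP w p := by
  have hcf : ∀ b, coeff b (monomial u c * p) ≠ 0 ↔ ∃ b', b = u + b' ∧ coeff b' p ≠ 0 := by
    intro b
    rw [coeff_monomial_mul']
    constructor
    · intro h
      by_cases h1 : u ≤ b
      · rw [if_pos h1] at h
        exact ⟨b - u, (add_tsub_cancel_of_le h1).symm, right_ne_zero_of_mul h⟩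
      · rw [if_neg h1] at h
        exact absurd rfl h
    · rintro ⟨b', rfl, h⟩
      rw [if_pos le_self_add, add_tsub_cancel_left]
      exact mul_ne_zero hc h
  ext a
  rw [coeff_iniP, coeff_monomial_mul', coeff_monomial_mul']
  by_cases h1 : u ≤ a
  · rw [if_pos h1, if_pos h1, coeff_iniP]
    have h2 : (∀ b, coeff b (monomial u c * p) ≠ 0 → wt w a ≤ wt w b) ↔
        ∀ b, coeff b p ≠ 0 → wt w (a - u) ≤ wt w b := by
      have h3 : wt w a = wt w u + wt w (a - u) := by
        rw [← wt_add, add_tsub_cancel_of_le h1]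
      constructor
      · intro h4 b hb
        have h5 := h4 (u + b) ((hcf _).mpr ⟨b, rfl, hb⟩)
        rw [h3, wt_add] at h5
        exact le_of_add_le_add_left h5
      · intro h4 b hb
        obtain ⟨b', rfl, hb'⟩ := (hcf b).mp hb
        rw [h3, wt_add]
        exact add_le_add le_rfl (h4 b' hb')
    simp only [h2]
    rw [mul_ite, mul_zero]
  · rw [if_neg h1, if_neg h1, ite_self]

end

section

variable [Finite σ]

theorem finite_deg (D : ℕ) : Finite {a : σ →₀ ℕ // a.degree = D} :=
  Set.Finite.subset (Finsupp.finite_of_degree_le D) (fun a (ha : a.degree = D) => ha.le)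

/-- restriction to the exponents of degree `D` -/
def rho (k : Type) (σ : Type) [Field k] (D : ℕ) :
    MvPolynomial σ k →ₗ[k] ({a : σ →₀ ℕ // a.degree = D} → k) where
  toFun g a := coeff a.1 g
  map_add' g h := by
    funext a
    exact coeff_add _ _ _
  map_smul' c g := by
    funext a
    exact coeff_smul _ _ _

variable {Γ Γ' : Type} [AddCommGroup Γ] [LinearOrder Γ] [IsOrderedAddMonoid Γ]
  [AddCommGroup Γ'] [LinearOrder Γ'] [IsOrderedAddMonoid Γ']

omit [Finite σ] [IsOrderedAddMonoid Γ] in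
theorem rho_iniP (F : σ → K) (w : σ → Γ) {D : ℕ} {g : MvPolynomial σ k} (hg : g ∈ Jr k F D) :
    rho k σ D (iniP w g) = ini (fun a => wt w a.1) (rho k σ D g) := by
  funext a
  show coeff a.1 (iniP w g) = if ∀ b : {a : σ →₀ ℕ // a.degree = D},
    coeff b.1 g ≠ 0 → wt w a.1 ≤ wt w b.1 then coeff a.1 g else 0
  rw [coeff_iniP]
  have h : (∀ b, coeff b g ≠ 0 → wt w a.1 ≤ wt w b) ↔ ∀ b : {a : σ →₀ ℕ // a.degree = D},
      coeff b.1 g ≠ 0 → wt w a.1 ≤ wt w b.1 :=
    ⟨fun h b hb => h b.1 hb, fun h b hb => h ⟨b, hg.1 b hb⟩ hb⟩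
  simp only [h]

/-- The local tropical basis theorem. -/
theorem local_tb (F : σ → K) (w : σ → Γ) (hw : HTrop k F w) :
    ∃ G : Finset (MvPolynomial σ k), ∀ w' : σ → Γ', (∀ g ∈ G, ∀ a b, coeff a g ≠ 0 →
      coeff b g ≠ 0 → (wt w a ≤ wt w b ↔ wt w' a ≤ wt w' b)) → HTrop k F w' := by
  -- the ideal of the initial forms
  let S : Set (MvPolynomial σ k) := {p | ∃ D, ∃ g ∈ Jr k F D, p = iniP w g}
  have hfg : (Submodule.span (MvPolynomial σ k) S).FG := IsNoetherian.noetherian _
  obtain ⟨T, hTS, hT⟩ := Submodule.fg_span_iff_fg_span_finset_subset S |>.mp hfg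
  have hex : ∀ p : MvPolynomial σ k, ∃ g : MvPolynomial σ k, p ∈ T →
      (∃ D, g ∈ Jr k F D) ∧ p = iniP w g := by
    intro p
    by_cases hp : p ∈ T
    · obtain ⟨D, g, h1, h2⟩ := hTS hp
      exact ⟨g, fun _ => ⟨⟨D, h1⟩, h2⟩⟩
    · exact ⟨0, fun h => absurd h hp⟩
  choose γ hγ using hex
  refine ⟨T.image γ, fun w' hw' => ?_⟩
  have hini : ∀ p ∈ T, p = iniP w' (γ p) := by
    intro p hp
    rw [← iniP_congr w w' (γ p) (hw' (γ p) (Finset.mem_image_of_mem _ hp))]
    exact (hγ p hp).2
  -- the main inclusion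
  have key : ∀ D, ∀ p ∈ T, ∀ q : MvPolynomial σ k, rho k σ D (q * p) ∈
      Submodule.span k (ini (fun a : {a : σ →₀ ℕ // a.degree = D} => wt w' a.1) ''
        ((Jr k F D).map (rho k σ D) : Set ({a : σ →₀ ℕ // a.degree = D} → k))) := by
    intro D p hp q
    obtain ⟨⟨D', hD'⟩, _⟩ := hγ p hp
    induction q using MvPolynomial.induction_on' with
    | monomial u c =>
      by_cases hc : c = 0
      · rw [hc, monomial_zero, zero_mul, map_zero]
        exact zero_mem _
      by_cases hdeg : u.degree + D' = D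
      · have h1 : monomial u c * γ p ∈ Jr k F D := by
          refine ⟨fun a ha => ?_, by rw [map_mul, hD'.2, mul_zero]⟩
          rw [coeff_monomial_mul'] at ha
          by_cases h1 : u ≤ a
          · rw [if_pos h1] at ha
            have h2 := hD'.1 _ (right_ne_zero_of_mul ha)
            have h3 : a = u + (a - u) := (add_tsub_cancel_of_le h1).symm
            rw [h3, map_add, h2, hdeg]
          · rw [if_neg h1] at ha
            exact absurd rfl ha
        rw [hini p hp, ← iniP_monomial_mul w' _ u hc, rho_iniP F w' h1]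
        exact Submodule.subset_span ⟨_, ⟨_, h1, rfl⟩, rfl⟩
      · have h1 : rho k σ D (monomial u c * p) = 0 := by
          funext a
          show coeff a.1 (monomial u c * p) = 0
          rw [coeff_monomial_mul']
          by_cases h1 : u ≤ a.1
          · rw [if_pos h1]
            have h2 : coeff (a.1 - u) p = 0 := by
              by_contra h3
              rw [hini p hp, coeff_iniP] at h3
              have h4 : coeff (a.1 - u) (γ p) ≠ 0 := by
                intro h5
                rw [h5, ite_self] at h3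
                exact h3 rfl
              have h5 := hD'.1 _ h4
              have h6 : a.1 = u + (a.1 - u) := (add_tsub_cancel_of_le h1).symm
              have h7 := congrArg Finsupp.degree h6
              rw [map_add, h5, a.2] at h7
              exact hdeg h7.symm
            rw [h2, mul_zero]
          · rw [if_neg h1]
        rw [h1]
        exact zero_mem _
    | add q1 q2 h1 h2 =>
      rw [add_mul, map_add]
      exact add_mem h1 h2
  have hle : ∀ D, ∀ g ∈ (Jr k F D).map (rho k σ D),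
      ini (fun a : {a : σ →₀ ℕ // a.degree = D} => wt w a.1) g ∈
      Submodule.span k (ini (fun a : {a : σ →₀ ℕ // a.degree = D} => wt w' a.1) ''
        ((Jr k F D).map (rho k σ D) : Set ({a : σ →₀ ℕ // a.degree = D} → k))) := by
    rintro D _ ⟨g, hg, rfl⟩
    rw [← rho_iniP F w hg]
    have h1 : iniP w g ∈ Submodule.span (MvPolynomial σ k) S :=
      Submodule.subset_span ⟨D, g, hg, rfl⟩
    rw [hT, Submodule.mem_span_finset'] at h1
    obtain ⟨c, hc⟩ := h1
    rw [← hc, map_sum]
    refine sum_mem fun p _ => ?_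
    rw [smul_eq_mul]
    exact key D p.1 p.2 _
  -- conclusion
  intro D h hh a ha
  by_contra hcon
  push Not at hcon
  have hfin := finite_deg (σ := σ) D
  obtain ⟨_, ⟨g, hg, rfl⟩, h1, h2⟩ := lin_main
    (fun a : {a : σ →₀ ℕ // a.degree = D} => wt w a.1)
    (fun a : {a : σ →₀ ℕ // a.degree = D} => wt w' a.1) ((Jr k F D).map (rho k σ D)) (hle D)
    (h := rho k σ D h) ⟨h, hh, rfl⟩ (a := ⟨a, hh.1 a ha⟩) ha
    (fun b hb hb0 => hcon b.1 hb0 fun h => hb (Subtype.ext h))
  obtain ⟨b, hb1, hb2, hb3⟩ := hw D g hg a h1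
  exact absurd (h2 ⟨b, hg.1 b hb1⟩ (fun h => hb2 (congrArg Subtype.val h)) hb1) (not_lt.mpr hb3)

end

end Pool.Agent.FrA
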