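import Mathlib

/-!
# MP_305fdd_al, F_r, section AP (approximation of real valuations), part 1: linear algebra

For a space `U` of functions on a finite set `X` and a weight `w` on `X` the initial forms of the
elements of `U` span a space of the dimension of `U`.
-/

set_option autoImplicit false

namespace Pool.Agent.FrA

open scoped Classical
open Module

universe u v

variable {k X : Type u} {Γ Γ' : Type v} [Field k] [LinearOrder Γ] [LinearOrder Γ']

/-- initial form of a function with respect to a weight -/
noncomputable def ini (w : X → Γ) (g : X → k) : X → k :=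
  fun a => if ∀ b, g b ≠ 0 → w a ≤ w b then g a else 0

/-- `c` is the minimum of the weights of the support -/
def IsMn (w : X → Γ) (g : X → k) (c : Γ) : Prop :=
  (∀ b, g b ≠ 0 → c ≤ w b) ∧ ∃ a, g a ≠ 0 ∧ w a = c

theorem exists_isMn [Finite X] (w : X → Γ) {g : X → k} (hg : g ≠ 0) : ∃ c, IsMn w g c := by
  have := Fintype.ofFinite X
  obtain ⟨a, ha⟩ := Function.ne_iff.mp hg
  obtain ⟨b, hb, hmin⟩ := (Finset.univ.filter fun a => g a ≠ 0).exists_min_image w
    ⟨a, Finset.mem_filter.mpr ⟨Finset.mem_univ _, ha⟩⟩
  exact ⟨w b, fun c hc => hmin c (Finset.mem_filter.mpr ⟨Finset.mem_univ _, hc⟩), b,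
    (Finset.mem_filter.mp hb).2, rfl⟩

theorem ini_apply {w : X → Γ} {g : X → k} {c : Γ} (h : IsMn w g c) (a : X) :
    ini w g a = if w a = c then g a else 0 := by
  unfold ini
  obtain ⟨h1, a0, h2, h3⟩ := h
  by_cases ha : w a = c
  · rw [if_pos ha, if_pos]
    intro b hb
    rw [ha]
    exact h1 b hb
  · rw [if_neg ha]
    by_cases hc : ∀ b, g b ≠ 0 → w a ≤ w b
    · rw [if_pos hc]
      by_contra hne
      have h4 := h1 a hne
      have h5 := hc a0 h2
      rw [h3] at h5
      exact ha (le_antisymm h5 h4)
    · rw [if_neg hc]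

theorem ini_zero (w : X → Γ) : ini w (0 : X → k) = 0 := by
  funext a
  unfold ini
  split_ifs <;> rfl

/-- homogeneous parts of the elements spanned by initial forms are initial forms -/
theorem exists_of_mem_span [Finite X] (w : X → Γ) (N : Submodule k (X → k)) (B : Set (X → k))
    (hB : ∀ z ∈ B, ∃ g ∈ N, ini w g = z) {z : X → k} (hz : z ∈ Submodule.span k B) (c : Γ) :
    ∃ h ∈ N, (∀ b, h b ≠ 0 → c ≤ w b) ∧ ∀ a, w a = c → h a = z a := by
  induction hz using Submodule.span_induction with
  | mem z hz =>
    obtain ⟨g, hg, rfl⟩ := hB z hz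
    by_cases hg0 : g = 0
    · refine ⟨0, zero_mem _, fun b hb => absurd rfl hb, fun a _ => ?_⟩
      rw [hg0, ini_zero]
    obtain ⟨c', hc'⟩ := exists_isMn w hg0
    by_cases hcc : c' = c
    · rw [hcc] at hc'
      refine ⟨g, hg, hc'.1, fun a ha => ?_⟩
      rw [ini_apply hc', if_pos ha]
    · refine ⟨0, zero_mem _, fun b hb => absurd rfl hb, fun a ha => ?_⟩
      rw [ini_apply hc', if_neg (by rw [ha]; exact fun h => hcc h.symm)]
      rfl
  | zero => exact ⟨0, zero_mem _, fun b hb => absurd rfl hb, fun a _ => rfl⟩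
  | add x y _ _ hx hy =>
    obtain ⟨h1, a1, a2, a3⟩ := hx
    obtain ⟨h2, b1, b2, b3⟩ := hy
    refine ⟨h1 + h2, add_mem a1 b1, fun b hb => ?_, fun a ha => ?_⟩
    · by_cases h0 : h1 b = 0
      · refine b2 b fun h => hb ?_
        rw [Pi.add_apply, h0, h, add_zero]
      · exact a2 b h0
    · rw [Pi.add_apply, Pi.add_apply, a3 a ha, b3 a ha]
  | smul r x _ hx =>
    obtain ⟨h1, a1, a2, a3⟩ := hx
    refine ⟨r • h1, Submodule.smul_mem _ _ a1, fun b hb => a2 b fun h => hb ?_, fun a ha => ?_⟩
    · rw [Pi.smul_apply, h, smul_zero]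
    · rw [Pi.smul_apply, Pi.smul_apply, a3 a ha]

/-- the initial forms of the elements of `U` span a space of the same dimension -/
theorem finrank_ini [Finite X] (w : X → Γ) (U : Submodule k (X → k)) :
    finrank k (Submodule.span k (ini w '' (U : Set (X → k)))) = finrank k U := by
  have := Fintype.ofFinite X
  obtain ⟨B, hBU, hspan, hli⟩ := exists_linearIndependent k (ini w '' (U : Set (X → k)))
  have : Finite B := hli.finite
  have := Fintype.ofFinite B
  have hex : ∀ z : B, ∃ g : X → k, g ∈ U ∧ ini w g = z := fun z => by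
    obtain ⟨g, hg, h⟩ := hBU z.2
    exact ⟨g, hg, h⟩
  choose g hgU hg using hex
  have hz0 : ∀ z : B, (z : X → k) ≠ 0 := fun z => hli.ne_zero z
  have hg0 : ∀ z : B, g z ≠ 0 := by
    intro z h
    apply hz0 z
    rw [← hg z, h, ini_zero]
  choose c hc using fun z => exists_isMn w (hg0 z)
  have hza : ∀ (z : B) (a : X), (z : X → k) a = if w a = c z then g z a else 0 := by
    intro z a
    conv_lhs => rw [← hg z]
    exact ini_apply (hc z) a
  -- independence
  have hgli : LinearIndependent k g := by
    rw [linearIndependent_iff']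
    intro s f hf i hi
    by_contra hfi
    obtain ⟨i0, hi0, hmin⟩ := (s.filter fun i => f i ≠ 0).exists_min_image c
      ⟨i, Finset.mem_filter.mpr ⟨hi, hfi⟩⟩
    have hi0' := Finset.mem_filter.mp hi0
    have key : ∑ i ∈ s, (if c i = c i0 then f i else 0) • (i : X → k) = 0 := by
      funext a
      rw [Finset.sum_apply]
      by_cases ha : w a = c i0
      · have h1 := congrFun hf a
        rw [Finset.sum_apply] at h1
        rw [← h1]
        refine Finset.sum_congr rfl fun i his => ?_
        rw [Pi.smul_apply, Pi.smul_apply, hza i a]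
        by_cases hci : c i = c i0
        · rw [if_pos hci, hci, if_pos ha]
        · rw [if_neg hci, zero_smul]
          by_cases hfi0 : f i = 0
          · rw [hfi0, zero_smul]
          · have h2 := hmin i (Finset.mem_filter.mpr ⟨his, hfi0⟩)
            have h3 : g i a = 0 := by
              by_contra h4
              have h5 := (hc i).1 a h4
              rw [ha] at h5
              exact hci (le_antisymm h5 h2)
            rw [h3, smul_zero]
      · refine Finset.sum_eq_zero fun i _ => ?_
        rw [Pi.smul_apply, hza i a]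
        by_cases hci : c i = c i0
        · rw [hci, if_neg ha, smul_zero]
        · rw [if_neg hci, zero_smul]
    have h1 := (linearIndependent_iff'.mp hli) s _ key i0 hi0'.1
    rw [if_pos rfl] at h1
    exact hi0'.2 h1
  -- generation
  have hgsp : Submodule.span k (Set.range g) = U := by
    refine le_antisymm (Submodule.span_le.mpr ?_) ?_
    · rintro _ ⟨z, rfl⟩
      exact hgU z
    · by_contra hcon
      obtain ⟨h0, hh0, hh0n⟩ := SetLike.not_le_iff_exists.mp hcon
      have hne : h0 ≠ 0 := by
        rintro rfl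
        exact hh0n (zero_mem _)
      obtain ⟨c0, hc0⟩ := exists_isMn w hne
      let C : Finset Γ := (Finset.univ.image w).filter fun c => ∃ h ∈ U,
        h ∉ Submodule.span k (Set.range g) ∧ IsMn w h c
      have hmemC : ∀ {h : X → k} {c : Γ}, h ∈ U → h ∉ Submodule.span k (Set.range g) →
          IsMn w h c → c ∈ C := by
        intro h c h1 h2 h3
        refine Finset.mem_filter.mpr ⟨?_, h, h1, h2, h3⟩
        obtain ⟨a, _, rfl⟩ := h3.2
        exact Finset.mem_image_of_mem _ (Finset.mem_univ _)
      obtain ⟨c1, hc1, hmax⟩ := C.exists_max_image id ⟨c0, hmemC hh0 hh0n hc0⟩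
      obtain ⟨h1, hh1, hh1n, hc1'⟩ := (Finset.mem_filter.mp hc1).2
      have hin : ini w h1 ∈ Submodule.span k B := by
        rw [hspan]
        exact Submodule.subset_span ⟨h1, hh1, rfl⟩
      obtain ⟨h2, hh2, hge, heq⟩ := exists_of_mem_span w (Submodule.span k (Set.range g)) B
        (fun z hz => ⟨g ⟨z, hz⟩, Submodule.subset_span ⟨_, rfl⟩, hg ⟨z, hz⟩⟩) hin c1
      have hh2U : h2 ∈ U := by
        have : Submodule.span k (Set.range g) ≤ U := by
          rw [Submodule.span_le]
          rintro _ ⟨z, rfl⟩
          exact hgU z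
        exact this hh2
      have hh3n : h1 - h2 ∉ Submodule.span k (Set.range g) := by
        intro h
        apply hh1n
        have := add_mem h hh2
        rwa [sub_add_cancel] at this
      have hh3 : h1 - h2 ∈ U := sub_mem hh1 hh2U
      have hh3' : h1 - h2 ≠ 0 := by
        intro h
        rw [h] at hh3n
        exact hh3n (zero_mem _)
      obtain ⟨c2, hc2⟩ := exists_isMn w hh3'
      have h4 : c2 ≤ c1 := hmax c2 (hmemC hh3 hh3n hc2)
      obtain ⟨_, a, ha, hac⟩ := hc2
      have h5 : c1 ≤ w a := by
        by_cases h6 : h1 a = 0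
        · refine hge a fun h7 => ha ?_
          rw [Pi.sub_apply, h6, h7, sub_zero]
        · exact hc1'.1 a h6
      have h6 : w a = c1 := le_antisymm (by rw [hac]; exact h4) h5
      apply ha
      rw [Pi.sub_apply, heq a h6, ini_apply hc1', if_pos h6, sub_self]
  rw [← hspan]
  have e1 : finrank k (Submodule.span k B) = Fintype.card B := by
    have := finrank_span_eq_card hli
    rwa [Subtype.range_coe] at this
  have e2 : finrank k U = Fintype.card B := by
    have := finrank_span_eq_card hgli
    rwa [hgsp] at this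
  rw [e1, e2]

/-- If all `w`-initial forms are in the span of the `w'`-initial forms, then a single initial term
for `w'` is also a single initial term for `w`. -/
theorem lin_main [Finite X] (w : X → Γ) (w' : X → Γ') (U : Submodule k (X → k))
    (hle : ∀ g ∈ U, ini w g ∈ Submodule.span k (ini w' '' (U : Set (X → k))))
    {h : X → k} (hh : h ∈ U) {a : X} (ha : h a ≠ 0) (huniq : ∀ b, b ≠ a → h b ≠ 0 → w' a < w' b) :
    ∃ g ∈ U, g a ≠ 0 ∧ ∀ b, b ≠ a → g b ≠ 0 → w a < w b := by
  have h1 : Submodule.span k (ini w '' (U : Set (X → k))) ≤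
      Submodule.span k (ini w' '' (U : Set (X → k))) := by
    rw [Submodule.span_le]
    rintro _ ⟨g, hg, rfl⟩
    exact hle g hg
  have h2 : Submodule.span k (ini w '' (U : Set (X → k))) =
      Submodule.span k (ini w' '' (U : Set (X → k))) :=
    Submodule.eq_of_le_of_finrank_eq h1 (by rw [finrank_ini, finrank_ini])
  have h3 : ini w' h ∈ Submodule.span k (ini w '' (U : Set (X → k))) := by
    rw [h2]
    exact Submodule.subset_span ⟨h, hh, rfl⟩
  obtain ⟨g, hg, hge, heq⟩ := exists_of_mem_span w U (ini w '' (U : Set (X → k)))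
    (fun z hz => hz) h3 (w a)
  have hmn : IsMn w' h (w' a) := by
    refine ⟨fun b hb => ?_, a, ha, rfl⟩
    by_cases hba : b = a
    · rw [hba]
    · exact (huniq b hba hb).le
  refine ⟨g, hg, ?_, fun b hba hb => ?_⟩
  · rw [heq a rfl, ini_apply hmn, if_pos rfl]
    exact ha
  · refine lt_of_le_of_ne (hge b hb) fun hwab => hb ?_
    rw [heq b hwab.symm, ini_apply hmn]
    by_cases h4 : w' b = w' a
    · rw [if_pos h4]
      by_contra h5
      exact absurd h4 (huniq b hba h5).ne'
    · rw [if_neg h4]

end Pool.Agent.FrA
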