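import Pool.Agent.Lib.MP_305fdd_al.Fr.A.Real

/-!
# MP_305fdd_al, F_r, section AP: approximation of real valuations by discrete valuations

`x` is a real valuation of the field `K`, finitely generated over `k`, trivial on `k`, and `S` is a
finite subset of `K`.  There are finitely many positive reals such that for every additive map
`L : ℝ → ℚ` which is positive on them the function `s ↦ L (x s)` on `S` is, up to a positive
integral factor, the restriction of an integral valuation `V` of `K`, trivial on `k`.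
-/

set_option autoImplicit false
set_option linter.unusedSectionVars false

namespace Pool.Agent.FrA

open scoped Classical
open MvPolynomial

variable {k K : Type} [Field k] [Field K] [Algebra k K]

/-- Approximation of real valuations (version with a positive integral factor). -/
theorem approx (S0 : Finset K) (hS0 : IntermediateField.adjoin k (S0 : Set K) = ⊤)
    {x : K → ℝ} (hx : F2Ch.IsV x) (ht : F2Ch.Triv k x) (S : Finset K) :
    ∃ F0 : Finset ℝ, (∀ r ∈ F0, 0 < r) ∧ ∀ L : ℝ →+ ℚ, (∀ r ∈ F0, 0 < L r) →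
      ∃ V : K → ℤ, F2Ch.IsV V ∧ F2Ch.Triv k V ∧ ∃ N : ℕ, 0 < N ∧
        ∀ s ∈ S, (V s : ℚ) = N * L (x s) := by
  let T : Finset K := (S ∪ S0).filter fun s => s ≠ 0
  let F : Option T → K := fun i => i.elim 1 fun t => t.1
  have hF : ∀ i, F i ≠ 0 := by
    rintro (_ | t)
    · exact one_ne_zero
    · exact (Finset.mem_filter.mp t.2).2
  have hgen : IntermediateField.adjoin k (Set.range F) = ⊤ := by
    rw [eq_top_iff, ← hS0, IntermediateField.adjoin_le_iff]
    intro s hs
    by_cases hs0 : s = 0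
    · rw [hs0]
      exact zero_mem _
    · exact IntermediateField.subset_adjoin _ _ ⟨some ⟨s, Finset.mem_filter.mpr
        ⟨Finset.mem_union_right _ (Finset.mem_coe.mp hs), hs0⟩⟩, rfl⟩
  have hw : HTrop k F (fun i => x (F i)) := val_htrop hx ht hF
  obtain ⟨G, hG⟩ := local_tb (Γ' := ℚ) F _ hw
  let D : Finset ℝ := G.biUnion fun g => (g.support ×ˢ g.support).image fun p =>
    wt (fun i => x (F i)) p.2 - wt (fun i => x (F i)) p.1
  have hD : ∀ g ∈ G, ∀ a b, coeff a g ≠ 0 → coeff b g ≠ 0 →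
      wt (fun i => x (F i)) b - wt (fun i => x (F i)) a ∈ D := by
    intro g hg a b ha hb
    exact Finset.mem_biUnion.mpr ⟨g, hg, Finset.mem_image.mpr ⟨(a, b), Finset.mem_product.mpr
      ⟨mem_support_iff.mpr ha, mem_support_iff.mpr hb⟩, rfl⟩⟩
  refine ⟨D.filter fun r => 0 < r, fun r hr => (Finset.mem_filter.mp hr).2, fun L hL => ?_⟩
  have hlt : ∀ g ∈ G, ∀ a b, coeff a g ≠ 0 → coeff b g ≠ 0 →
      wt (fun i => x (F i)) a < wt (fun i => x (F i)) b →
      wt (fun i => L (x (F i))) a < wt (fun i => L (x (F i))) b := by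
    intro g hg a b ha hb hab
    have h1 := hL _ (Finset.mem_filter.mpr ⟨hD g hg a b ha hb, sub_pos.mpr hab⟩)
    rw [map_sub, ← wt_map, ← wt_map, sub_pos] at h1
    exact h1
  have hw' : HTrop k F (fun i => L (x (F i))) := by
    refine hG _ fun g hg a b ha hb => ?_
    constructor
    · intro h
      rcases lt_or_eq_of_le h with h1 | h1
      · exact (hlt g hg a b ha hb h1).le
      · rw [wt_map, wt_map, h1]
    · intro h
      by_contra hcon
      exact absurd h (not_le.mpr (hlt g hg b a hb ha (not_le.mp hcon)))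
  obtain ⟨V, hV, hVt, N, hN, hVF⟩ := real_rat hF none rfl hgen _
    (by show L (x 1) = 0; rw [v_one hx, map_zero]) hw'
  refine ⟨V, hV, hVt, N, hN, fun s hs => ?_⟩
  by_cases hs0 : s = 0
  · rw [hs0, hV.zero, hx.zero, map_zero, mul_zero, Int.cast_zero]
  · exact hVF (some ⟨s, Finset.mem_filter.mpr ⟨Finset.mem_union_left _ hs, hs0⟩⟩)

/-- Approximation of real valuations: rational values. -/
theorem approx_rat (S0 : Finset K) (hS0 : IntermediateField.adjoin k (S0 : Set K) = ⊤)
    {x : K → ℝ} (hx : F2Ch.IsV x) (ht : F2Ch.Triv k x) (S : Finset K) :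
    ∃ F0 : Finset ℝ, (∀ r ∈ F0, 0 < r) ∧ ∀ L : ℝ →+ ℚ, (∀ r ∈ F0, 0 < L r) →
      ∃ V : K → ℚ, F2Ch.IsV V ∧ F2Ch.Triv k V ∧ (∀ s ∈ S, V s = L (x s)) ∧
        ∃ N : ℕ, 0 < N ∧ ∀ y, ∃ n : ℤ, N * V y = n := by
  obtain ⟨F0, h0, h⟩ := approx S0 hS0 hx ht S
  refine ⟨F0, h0, fun L hL => ?_⟩
  obtain ⟨V, hV, hVt, N, hN, hVS⟩ := h L hL
  have hN' : (0 : ℚ) < N := by exact_mod_cast hN
  refine ⟨fun y => (V y : ℚ) / N, ⟨?_, fun a b ha hb => ?_, fun a b ha hb hab => ?_⟩, fun c => ?_,
    fun s hs => ?_, N, hN, fun y => ⟨V y, ?_⟩⟩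
  · show (V 0 : ℚ) / N = 0
    rw [hV.zero, Int.cast_zero, zero_div]
  · show (V (a * b) : ℚ) / N = V a / N + V b / N
    rw [hV.mul a b ha hb, Int.cast_add, add_div]
  · show min ((V a : ℚ) / N) (V b / N) ≤ V (a + b) / N
    rcases min_le_iff.mp (hV.add a b ha hb hab) with h2 | h2
    · exact min_le_iff.mpr (Or.inl (div_le_div_of_nonneg_right (by exact_mod_cast h2) hN'.le))
    · exact min_le_iff.mpr (Or.inr (div_le_div_of_nonneg_right (by exact_mod_cast h2) hN'.le))
  · show (V _ : ℚ) / N = 0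
    rw [hVt c, Int.cast_zero, zero_div]
  · show (V s : ℚ) / N = _
    rw [hVS s hs, mul_div_cancel_left₀ _ hN'.ne']
  · show (N : ℚ) * ((V y : ℚ) / N) = _
    rw [mul_div_cancel₀ _ hN'.ne']

end Pool.Agent.FrA
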