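import Pool.Agent.Lib.MP_305fdd_al.Fr.A.Init
import Pool.Agent.Lib.MP_305fdd_al.F2.ChDefs

/-!
# MP_305fdd_al, F_r, section AP, part 4: values of monomials; valuations are tropical points
-/

set_option autoImplicit false
set_option linter.unusedSectionVars false

namespace Pool.Agent.FrA

open scoped Classical
open MvPolynomial

variable {σ k K : Type} [Field k] [Field K] [Algebra k K]

/-- the monomial with exponent `b` -/
noncomputable def mo (F : σ → K) (b : σ →₀ ℕ) : K := b.prod fun i n => F i ^ n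

theorem mo_add (F : σ → K) (a b : σ →₀ ℕ) : mo F (a + b) = mo F a * mo F b :=
  Finsupp.prod_add_index' (fun _ => pow_zero _) (fun _ _ _ => pow_add _ _ _)

theorem mo_zero (F : σ → K) : mo F 0 = 1 := Finsupp.prod_zero_index

theorem mo_ne {F : σ → K} (hF : ∀ i, F i ≠ 0) (b : σ →₀ ℕ) : mo F b ≠ 0 :=
  Finset.prod_ne_zero_iff.mpr fun i _ => pow_ne_zero _ (hF i)

theorem aeval_mono (F : σ → K) (b : σ →₀ ℕ) (c : k) :
    aeval F (monomial b c) = algebraMap k K c * mo F b := aeval_monomial _ _ _

theorem aeval_sum (F : σ → K) (g : MvPolynomial σ k) :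
    aeval F g = ∑ b ∈ g.support, algebraMap k K (coeff b g) * mo F b := by
  conv_lhs => rw [g.as_sum]
  rw [map_sum]
  exact Finset.sum_congr rfl fun b _ => aeval_mono F b _

variable {Γ : Type} [AddCommGroup Γ] [LinearOrder Γ] [IsOrderedAddMonoid Γ]

omit [Algebra k K] in
theorem v_one {v : K → Γ} (hv : F2Ch.IsV v) : v 1 = 0 := by
  have := hv.mul 1 1 one_ne_zero one_ne_zero
  rw [mul_one] at this
  exact left_eq_add.mp this

theorem v_pow {v : K → Γ} (hv : F2Ch.IsV v) {x : K} (hx : x ≠ 0) (n : ℕ) : v (x ^ n) = n • v x := by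
  induction n with
  | zero => rw [pow_zero, v_one hv, zero_smul]
  | succ n ih => rw [pow_succ, hv.mul _ _ (pow_ne_zero n hx) hx, ih, succ_nsmul]

theorem v_inv {v : K → Γ} (hv : F2Ch.IsV v) {x : K} (hx : x ≠ 0) : v x⁻¹ = - v x := by
  have := hv.mul x x⁻¹ hx (inv_ne_zero hx)
  rw [mul_inv_cancel₀ hx, v_one hv] at this
  exact (neg_eq_of_add_eq_zero_right this.symm).symm

theorem v_zpow {v : K → Γ} (hv : F2Ch.IsV v) {x : K} (hx : x ≠ 0) (n : ℤ) :
    v (x ^ n) = n • v x := by
  cases n with
  | ofNat n => rw [Int.ofNat_eq_natCast, zpow_natCast, v_pow hv hx, natCast_zsmul]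
  | negSucc n =>
    rw [zpow_negSucc, v_inv hv (pow_ne_zero _ hx), v_pow hv hx, negSucc_zsmul]

/-- the value of a monomial -/
theorem v_mo {v : K → Γ} (hv : F2Ch.IsV v) {F : σ → K} (hF : ∀ i, F i ≠ 0) (b : σ →₀ ℕ) :
    v (mo F b) = wt (fun i => v (F i)) b := by
  induction b using Finsupp.induction_linear with
  | zero =>
    rw [mo_zero, v_one hv]
    exact (map_zero _).symm
  | add a b ha hb => rw [mo_add, hv.mul _ _ (mo_ne hF a) (mo_ne hF b), ha, hb, wt_add]
  | single i n =>
    have h1 : mo F (Finsupp.single i n) = F i ^ n := Finsupp.prod_single_index (pow_zero _)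
    have h2 : wt (fun i => v (F i)) (Finsupp.single i n) = n • v (F i) :=
      Finsupp.weight_single _ _ _
    rw [h1, h2, v_pow hv (hF i)]

/-- sums of elements of value greater than `c` -/
theorem v_sum {v : K → Γ} (hv : F2Ch.IsV v) {ι : Type} (s : Finset ι) (t : ι → K) (c : Γ)
    (h : ∀ i ∈ s, t i = 0 ∨ c < v (t i)) : ∑ i ∈ s, t i = 0 ∨ c < v (∑ i ∈ s, t i) := by
  induction s using Finset.induction_on with
  | empty => exact Or.inl Finset.sum_empty
  | insert a s ha ih =>
    have h1 := h a (Finset.mem_insert_self a s)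
    have h2 := ih fun i hi => h i (Finset.mem_insert_of_mem hi)
    rw [Finset.sum_insert ha]
    by_cases h3 : t a = 0
    · rw [h3, zero_add]
      exact h2
    by_cases h4 : ∑ i ∈ s, t i = 0
    · rw [h4, add_zero]
      exact h1
    by_cases h5 : t a + ∑ i ∈ s, t i = 0
    · exact Or.inl h5
    · refine Or.inr (lt_of_lt_of_le (lt_min ?_ ?_) (hv.add _ _ h3 h4 h5))
      · exact h1.resolve_left h3
      · exact h2.resolve_left h4

theorem v_neg {v : K → Γ} (hv : F2Ch.IsV v) (ht : F2Ch.Triv k v) (x : K) : v (-x) = v x := by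
  by_cases hx : x = 0
  · rw [hx, neg_zero]
  have h1 : v (-1 : K) = 0 := by
    have := ht (-1)
    rwa [map_neg, map_one] at this
  rw [← neg_one_mul, hv.mul _ _ (neg_ne_zero.mpr one_ne_zero) hx, h1, zero_add]

/-- a valuation has no relation with a single initial term -/
theorem val_htrop {v : K → Γ} (hv : F2Ch.IsV v) (ht : F2Ch.Triv k v) {F : σ → K}
    (hF : ∀ i, F i ≠ 0) : HTrop k F (fun i => v (F i)) := by
  intro D g hg a ha
  by_contra hcon
  push Not at hcon
  have h1 := hg.2
  rw [aeval_sum, ← Finset.add_sum_erase _ _ (mem_support_iff.mpr ha)] at h1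
  have hva : ∀ b, coeff b g ≠ 0 → algebraMap k K (coeff b g) * mo F b ≠ 0 ∧
      v (algebraMap k K (coeff b g) * mo F b) = wt (fun i => v (F i)) b := by
    intro b hb
    have h2 : algebraMap k K (coeff b g) ≠ 0 := by
      rw [Ne, map_eq_zero]
      exact hb
    exact ⟨mul_ne_zero h2 (mo_ne hF b), by rw [hv.mul _ _ h2 (mo_ne hF b), ht, zero_add, v_mo hv hF]⟩
  have h2 := v_sum hv (g.support.erase a) (fun b => algebraMap k K (coeff b g) * mo F b)
    (wt (fun i => v (F i)) a) fun b hb => by
      have h3 := Finset.mem_erase.mp hb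
      have h4 := mem_support_iff.mp h3.2
      refine Or.inr ?_
      show _ < v (algebraMap k K (coeff b g) * mo F b)
      rw [(hva b h4).2]
      exact hcon b h4 h3.1
  have h3 : algebraMap k K (coeff a g) * mo F a =
      -∑ b ∈ g.support.erase a, algebraMap k K (coeff b g) * mo F b := eq_neg_of_add_eq_zero_left h1
  rcases h2 with h2 | h2
  · rw [h2, neg_zero] at h3
    exact (hva a ha).1 h3
  · have h4 := congrArg v h3
    rw [(hva a ha).2, v_neg hv ht] at h4
    rw [h4] at h2
    exact lt_irrefl _ h2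

end Pool.Agent.FrA
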