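import Pool.Agent.Lib.MP_305fdd_al.Fr.D.Semi

/-!
# MP_305fdd_al, F_r, section AP, part 3: a discrete valuation with a given pole

If `z⁻¹` lies in the finitely generated algebra `E` with the quotient field `K` and `z` does not,
then there is a discrete valuation which is nonnegative on `E` and negative at `z`.
-/

set_option autoImplicit false

namespace Pool.Agent.FrA

open Polynomial FrD

variable {k K : Type} [Field k] [Field K] [Algebra k K]

/-- The degrees of the elements of a f.g. extension field, algebraic over `A`, are bounded. -/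
theorem bdd_deg {A : Type} [CommRing A] [IsDomain A] [Algebra k A] [Algebra A K]
    [IsScalarTower k A K] (hinj : Function.Injective (algebraMap A K))
    (halg : ∀ x : K, IsAlgebraic A x) (S : Finset K)
    (hS : IntermediateField.adjoin k (S : Set K) = ⊤) :
    ∃ e : ℕ, ∀ x : K, ∃ P : A[X], P ≠ 0 ∧ P.natDegree ≤ e ∧ aeval x P = 0 := by
  let K0 := FractionRing A
  let algK0 : Algebra K0 K := (IsFractionRing.lift hinj).toAlgebra
  have tow : IsScalarTower A K0 K := IsScalarTower.of_algebraMap_eq fun a => by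
    rw [RingHom.algebraMap_toAlgebra, IsFractionRing.lift_algebraMap]
  have halg0 : ∀ x : K, IsIntegral K0 x := fun x => by
    have h1 : IsAlgebraic K0 x := (halg x).extendScalars (IsFractionRing.injective A K0)
    exact isAlgebraic_iff_isIntegral.mp h1
  have hfin : FiniteDimensional K0 (IntermediateField.adjoin K0 (S : Set K)) :=
    IntermediateField.finiteDimensional_adjoin fun x _ => halg0 x
  have htop : IntermediateField.adjoin K0 (S : Set K) = ⊤ := by
    rw [eq_top_iff]
    intro x _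
    have hx : x ∈ IntermediateField.adjoin k (S : Set K) := by
      rw [hS]
      exact IntermediateField.mem_top
    have hle : Subfield.closure (Set.range (algebraMap k K) ∪ (S : Set K)) ≤
        (IntermediateField.adjoin K0 (S : Set K)).toSubfield := by
      rw [Subfield.closure_le]
      rintro y (⟨c, rfl⟩ | hy)
      · have h1 : algebraMap k K c = algebraMap K0 K (algebraMap A K0 (algebraMap k A c)) := by
          rw [← IsScalarTower.algebraMap_apply A K0 K, ← IsScalarTower.algebraMap_apply k A K]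
        rw [h1]
        exact IntermediateField.algebraMap_mem _ _
      · exact IntermediateField.subset_adjoin _ _ hy
    exact hle hx
  rw [htop] at hfin
  have hfin' : FiniteDimensional K0 K :=
    Module.Finite.equiv (IntermediateField.topEquiv (F := K0) (E := K)).toLinearEquiv
  refine ⟨Module.finrank K0 K, fun x => ?_⟩
  refine ⟨IsLocalization.integerNormalization (nonZeroDivisors A) (minpoly K0 x), ?_, ?_, ?_⟩
  · rw [Ne, IsLocalization.integerNormalization_eq_zero_iff le_rfl]
    exact minpoly.ne_zero (halg0 x)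
  · refine le_trans ?_ (minpoly.natDegree_le x)
    exact natDegree_le_natDegree (degree_mono (IsLocalization.integerNormalization_support _ _))
  · exact IsLocalization.integerNormalization_aeval_eq_zero _ _ (minpoly.aeval K0 x)

/-- Scaling to an integral valuation. -/
theorem to_int {v : K → ℝ} (hv : F2Ch.IsV v) (htr : F2Ch.Triv k v) {γ : ℝ} (hγ : 0 < γ) {e : ℕ}
    (h : ∀ x : K, x ≠ 0 → ∃ m : ℕ, 1 ≤ m ∧ m ≤ e ∧ ∃ c : ℤ, m * v x = c * γ) :
    ∃ V : K → ℤ, F2Ch.IsV V ∧ F2Ch.Triv k V ∧ ∀ x, (V x : ℝ) * γ = (e.factorial : ℝ) * v x := by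
  have hex : ∀ x : K, ∃ n : ℤ, (n : ℝ) * γ = (e.factorial : ℝ) * v x := by
    intro x
    by_cases hx : x = 0
    · exact ⟨0, by rw [hx, hv.zero, mul_zero, Int.cast_zero, zero_mul]⟩
    obtain ⟨m, hm1, hm2, c, hc⟩ := h x hx
    obtain ⟨q, hq⟩ := Nat.dvd_factorial hm1 hm2
    refine ⟨q * c, ?_⟩
    rw [hq]
    push_cast
    linear_combination -(q : ℝ) * hc
  choose V hV using hex
  have hE : (0 : ℝ) < (e.factorial : ℝ) := by exact_mod_cast e.factorial_pos
  have hinj : ∀ {a b : ℤ}, (a : ℝ) * γ = b * γ → a = b := fun {a b} h => by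
    exact_mod_cast mul_right_cancel₀ hγ.ne' h
  refine ⟨V, ⟨?_, fun x y hx hy => ?_, fun x y hx hy hxy => ?_⟩, fun c => ?_, hV⟩
  · apply hinj
    rw [hV, hv.zero]
    simp
  · apply hinj
    push_cast
    rw [add_mul, hV, hV, hV, hv.mul x y hx hy, mul_add]
  · have h1 : ∀ a b : K, v a ≤ v b → V a ≤ V b := by
      intro a b hab
      have h2 : (V a : ℝ) * γ ≤ (V b : ℝ) * γ := by
        rw [hV, hV]
        exact mul_le_mul_of_nonneg_left hab hE.le
      exact_mod_cast le_of_mul_le_mul_right h2 hγ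
    rcases min_le_iff.mp (hv.add x y hx hy hxy) with h2 | h2
    · exact min_le_iff.mpr (Or.inl (h1 _ _ h2))
    · exact min_le_iff.mpr (Or.inr (h1 _ _ h2))
  · apply hinj
    rw [hV, htr c]
    simp

/-- A discrete valuation, nonnegative on `E`, with a pole at `z`. -/
theorem exists_val (E : Subalgebra k K) (hE : E.FG)
    (hfrac : IntermediateField.adjoin k (E : Set K) = ⊤) {z : K} (hz0 : z ≠ 0) (hz : z⁻¹ ∈ E)
    (hzE : z ∉ E) :
    ∃ V : K → ℤ, F2Ch.IsV V ∧ F2Ch.Triv k V ∧ (∀ x ∈ E, x ≠ 0 → 0 ≤ V x) ∧ V z < 0 := by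
  obtain ⟨S, hS⟩ := id hE
  have hStop : IntermediateField.adjoin k (S : Set K) = ⊤ := by
    rw [eq_top_iff, ← hfrac, IntermediateField.adjoin_le_iff]
    intro x hx
    have h1 : x ∈ Algebra.adjoin k (S : Set K) := by
      rw [hS]
      exact hx
    exact IntermediateField.algebra_adjoin_le_adjoin _ _ h1
  have hft : Algebra.FiniteType k E := E.fg_iff_finiteType.mp hE
  obtain ⟨d, g, hg, hgi⟩ := exists_integral_inj_algHom_of_fg k E
  let g' : MvPolynomial (Fin d) k →ₐ[k] K := E.val.comp g
  let algK : Algebra (MvPolynomial (Fin d) k) K := g'.toRingHom.toAlgebra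
  let algE : Algebra (MvPolynomial (Fin d) k) E := g.toRingHom.toAlgebra
  have tow : IsScalarTower (MvPolynomial (Fin d) k) E K := IsScalarTower.of_algebraMap_eq fun _ => rfl
  have tow2 : IsScalarTower k (MvPolynomial (Fin d) k) K := IsScalarTower.of_algebraMap_eq fun c =>
    (g'.commutes c).symm
  have hEint : Algebra.IsIntegral (MvPolynomial (Fin d) k) E := ⟨fun x => hgi x⟩
  have hinj : Function.Injective (algebraMap (MvPolynomial (Fin d) k) K) := by
    intro P Q h
    exact hg (Subtype.ext h)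
  have halgE : ∀ x : K, IsAlgebraic E x := by
    intro x
    have hx : x ∈ IntermediateField.adjoin k (S : Set K) := by
      rw [hStop]
      exact IntermediateField.mem_top
    obtain ⟨a, ha, b, hb, rfl⟩ := IntermediateField.mem_adjoin_iff_div.mp hx
    rw [hS] at ha hb
    rw [div_eq_mul_inv]
    have h1 : IsAlgebraic E a := isAlgebraic_algebraMap (⟨a, ha⟩ : E)
    have h2 : IsAlgebraic E b := isAlgebraic_algebraMap (⟨b, hb⟩ : E)
    exact h1.mul h2.inv
  have halgA : ∀ x : K, IsAlgebraic (MvPolynomial (Fin d) k) x := fun x =>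
    (halgE x).restrictScalars _
  have hni : ¬ IsIntegral (MvPolynomial (Fin d) k) z := fun h =>
    hzE (mem_of_int_inv E hz0 hz h.tower_top)
  obtain ⟨e, he⟩ := bdd_deg hinj halgA S hStop
  obtain ⟨π, y, hπ, hy, hfy⟩ := exists_over hinj (halgA z) hni
  have hp0 : algebraMap (MvPolynomial (Fin d) k) K π ≠ 0 := by
    rw [Ne, map_eq_zero_iff _ hinj]
    exact hπ.ne_zero
  have hval : ∀ x : K, x ≠ 0 → ∃ m : ℕ, 1 ≤ m ∧ m ≤ e ∧ ∃ c : ℤ, y.valuation x ^ m =
      y.valuation (algebraMap (MvPolynomial (Fin d) k) K π) ^ c := by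
    intro x hx
    obtain ⟨P, hP, hPe, hP0⟩ := he x
    obtain ⟨m, hm, hme, c, hc⟩ := hy.exists_zpow hπ hinj hx hP hP0
    exact ⟨m, hm, hme.trans hPe, c, hc⟩
  obtain ⟨v, hv, hvy⟩ := real_val y hy.lt hp0 fun x hx => by
    obtain ⟨m, hm, _, c, hc⟩ := hval x hx
    exact ⟨m, hm, c, hc⟩
  have hkk : ∀ c : k, algebraMap k K c ∈ y := by
    intro c
    have h1 := hy.mem (MvPolynomial.C c)
    have h2 : algebraMap (MvPolynomial (Fin d) k) K (MvPolynomial.C c) = algebraMap k K c :=
      g'.commutes c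
    rwa [h2] at h1
  have htriv : F2Ch.Triv k v := by
    intro c
    by_cases hc : c = 0
    · rw [hc, map_zero, hv.zero]
    have hc0 : algebraMap k K c ≠ 0 := by
      rw [Ne, map_eq_zero]
      exact hc
    have h1 : 0 ≤ v (algebraMap k K c) := (hvy _ hc0).mpr (hkk c)
    have h2 : 0 ≤ v (algebraMap k K c)⁻¹ := by
      rw [← map_inv₀]
      exact (hvy _ (by rw [map_inv₀]; exact inv_ne_zero hc0)).mpr (hkk _)
    rw [IsV_inv hv hc0] at h2
    linarith
  have hEy : ∀ x ∈ E, x ∈ y := by
    intro x hx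
    refine hy.mem_of_int ?_
    exact (hEint.isIntegral (⟨x, hx⟩ : E)).map (IsScalarTower.toAlgHom (MvPolynomial (Fin d) k) E K)
  set p : K := algebraMap (MvPolynomial (Fin d) k) K π with hp
  have hpn : p⁻¹ ∉ y := by
    intro h
    have h1 := (y.valuation_le_one_iff _).mpr h
    rw [map_inv₀] at h1
    have h2 : (0 : y.ValueGroup) < y.valuation p := by
      rw [zero_lt_iff, Ne, map_eq_zero]
      exact hp0
    have h3 := (one_lt_inv₀ h2).mpr hy.lt
    exact absurd h1 (not_le.mpr h3)
  have hvp : 0 < v p := by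
    by_contra hcon
    push Not at hcon
    apply hpn
    rw [← hvy _ (inv_ne_zero hp0), IsV_inv hv hp0]
    linarith
  have hvpow : ∀ (x : K) (n : ℕ), x ≠ 0 → v (x ^ n) = n * v x := by
    intro x n hx
    induction n with
    | zero => rw [pow_zero, IsV_one hv]; simp
    | succ n ih =>
      rw [pow_succ, hv.mul _ _ (pow_ne_zero n hx) hx, ih]
      push_cast
      ring
  have hvzpow : ∀ (x : K) (n : ℤ), x ≠ 0 → v (x ^ n) = n * v x := by
    intro x n hx
    cases n with
    | ofNat n =>
      rw [Int.ofNat_eq_natCast, zpow_natCast, hvpow x n hx]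
      simp
    | negSucc n =>
      rw [zpow_negSucc, IsV_inv hv (pow_ne_zero _ hx), hvpow x _ hx, Int.cast_negSucc]
      push_cast
      ring
  have hvunit : ∀ x : K, x ≠ 0 → y.valuation x = 1 → v x = 0 := by
    intro x hx h
    have h1 : 0 ≤ v x := (hvy x hx).mpr ((y.valuation_le_one_iff _).mp h.le)
    have h2 : 0 ≤ v x⁻¹ := (hvy _ (inv_ne_zero hx)).mpr ((y.valuation_le_one_iff _).mp (by
      rw [map_inv₀, h, inv_one]))
    rw [IsV_inv hv hx] at h2
    linarith
  have hrel : ∀ x : K, x ≠ 0 → ∃ m : ℕ, 1 ≤ m ∧ m ≤ e ∧ ∃ c : ℤ, m * v x = c * v p := by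
    intro x hx
    obtain ⟨m, hm, hme, c, hc⟩ := hval x hx
    refine ⟨m, hm, hme, c, ?_⟩
    have h1 : x ^ m * p ^ (-c) ≠ 0 := mul_ne_zero (pow_ne_zero _ hx) (zpow_ne_zero _ hp0)
    have h2 : y.valuation (x ^ m * p ^ (-c)) = 1 := by
      rw [map_mul, map_pow, map_zpow₀, hc, ← zpow_add₀ (by rw [Ne, map_eq_zero]; exact hp0),
        add_neg_cancel, zpow_zero]
    have h3 := hvunit _ h1 h2
    rw [hv.mul _ _ (pow_ne_zero _ hx) (zpow_ne_zero _ hp0), hvpow x m hx, hvzpow p _ hp0] at h3
    push_cast at h3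
    linarith
  obtain ⟨V, hV, hVt, hVe⟩ := to_int hv htriv hvp hrel
  have hE0 : (0 : ℝ) < (e.factorial : ℝ) := by exact_mod_cast e.factorial_pos
  refine ⟨V, hV, hVt, fun x hx hx0 => ?_, ?_⟩
  · have h1 : 0 ≤ v x := (hvy x hx0).mpr (hEy x hx)
    have h2 : (0 : ℝ) ≤ (V x : ℝ) * v p := by
      rw [hVe]
      positivity
    exact_mod_cast nonneg_of_mul_nonneg_left h2 hvp
  · have h1 : v z < 0 := by
      by_contra hcon
      push Not at hcon
      exact hfy ((hvy z hz0).mp hcon)
    have h2 : (V z : ℝ) * v p < 0 := by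
      rw [hVe]
      exact mul_neg_of_pos_of_neg hE0 h1
    have h3 : (V z : ℝ) < 0 := by
      by_contra hcon
      push Not at hcon
      have := mul_nonneg hcon hvp.le
      linarith
    exact_mod_cast h3

end Pool.Agent.FrA
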