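import Pool.Agent.Lib.MP_305fdd_al.Fr.A.Mono
import Pool.Agent.Lib.MP_305fdd_al.Fr.A.Val

/-!
# MP_305fdd_al, F_r, section AP, part 5: valuations from rational tropical points
-/

set_option autoImplicit false
set_option linter.unusedSectionVars false

namespace Pool.Agent.FrA

open scoped Classical
open MvPolynomial

variable {σ k K : Type} [Field k] [Field K] [Algebra k K]

/-- all monomials of `P` have degree `D` and weight at least `c` -/
def GoodP (w : σ → ℤ) (D : ℕ) (c : ℤ) (P : MvPolynomial σ k) : Prop :=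
  ∀ b, coeff b P ≠ 0 → b.degree = D ∧ c ≤ wt w b

theorem GoodP.add {w : σ → ℤ} {D : ℕ} {c : ℤ} {P Q : MvPolynomial σ k} (hP : GoodP w D c P)
    (hQ : GoodP w D c Q) : GoodP w D c (P + Q) := by
  intro b hb
  by_cases h : coeff b P = 0
  · refine hQ b fun h' => hb ?_
    rw [coeff_add, h, h', add_zero]
  · exact hP b h

theorem GoodP.mul {w : σ → ℤ} {D D' : ℕ} {c c' : ℤ} {P Q : MvPolynomial σ k}
    (hP : GoodP w D c P) (hQ : GoodP w D' c' Q) : GoodP w (D + D') (c + c') (P * Q) := by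
  intro b hb
  rw [coeff_mul] at hb
  obtain ⟨x, hx, hx0⟩ := Finset.exists_ne_zero_of_sum_ne_zero hb
  obtain ⟨h1, h2⟩ := hP x.1 (left_ne_zero_of_mul hx0)
  obtain ⟨h3, h4⟩ := hQ x.2 (right_ne_zero_of_mul hx0)
  have hx := Finset.HasAntidiagonal.mem_antidiagonal.mp hx
  rw [← hx, map_add, wt_add, h1, h3]
  exact ⟨rfl, add_le_add h2 h4⟩

theorem goodP_monomial (w : σ → ℤ) (b : σ →₀ ℕ) (r : k) :
    GoodP w b.degree (wt w b) (monomial b r) := by
  intro b' hb'
  rw [coeff_monomial] at hb'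
  by_cases h : b = b'
  · rw [h]
    exact ⟨rfl, le_rfl⟩
  · rw [if_neg h] at hb'
    exact absurd rfl hb'

/-- combinations of Laurent monomials of degree zero and nonnegative weight -/
def OO (k : Type) {σ K : Type} [Field k] [Field K] [Algebra k K] (F : σ → K) (w : σ → ℤ) :
    Subalgebra k K where
  carrier := {z | ∃ (c : σ →₀ ℕ) (P : MvPolynomial σ k), GoodP w c.degree (wt w c) P ∧
    z * mo F c = aeval F P}
  mul_mem' := by
    rintro z z' ⟨c, P, hP, h⟩ ⟨c', P', hP', h'⟩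
    refine ⟨c + c', P * P', ?_, ?_⟩
    · rw [map_add, wt_add]
      exact hP.mul hP'
    · rw [mo_add, map_mul, ← h, ← h']
      ring
  add_mem' := by
    rintro z z' ⟨c, P, hP, h⟩ ⟨c', P', hP', h'⟩
    refine ⟨c + c', P * monomial c' 1 + P' * monomial c 1, GoodP.add ?_ ?_, ?_⟩
    · rw [map_add, wt_add]
      exact hP.mul (goodP_monomial w c' 1)
    · rw [map_add, wt_add, add_comm c.degree, add_comm (wt w c)]
      exact hP'.mul (goodP_monomial w c 1)
    · rw [mo_add, map_add, map_mul, map_mul, ← h, ← h', aeval_mono, aeval_mono, map_one]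
      ring
  algebraMap_mem' := fun r => by
    refine ⟨0, monomial 0 r, goodP_monomial w 0 r, ?_⟩
    rw [aeval_mono]

section

variable [Fintype σ]

/-- Laurent monomials -/
noncomputable def lm (F : σ → K) (a : σ → ℤ) : K := ∏ i, F i ^ a i

/-- positive part -/
noncomputable def pp (a : σ → ℤ) : σ →₀ ℕ := Finsupp.equivFunOnFinite.symm fun i => (a i).toNat

theorem pp_apply (a : σ → ℤ) (i : σ) : pp a i = (a i).toNat := rfl

theorem mo_eq (F : σ → K) (b : σ →₀ ℕ) : mo F b = ∏ i, F i ^ b i :=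
  Finsupp.prod_fintype _ _ fun _ => pow_zero _

theorem wt_eq (w : σ → ℤ) (b : σ →₀ ℕ) : wt w b = ∑ i, (b i : ℤ) * w i := by
  unfold wt
  rw [Finsupp.weight_eq_sum]
  exact Finset.sum_congr rfl fun i _ => by rw [nsmul_eq_mul]

theorem toNat_sub (n : ℤ) : (n.toNat : ℤ) - ((-n).toNat : ℤ) = n := by omega

theorem lm_mul {F : σ → K} (hF : ∀ i, F i ≠ 0) (a : σ → ℤ) :
    lm F a * mo F (pp (-a)) = mo F (pp a) := by
  rw [mo_eq, mo_eq, lm, ← Finset.prod_mul_distrib]
  refine Finset.prod_congr rfl fun i _ => ?_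
  rw [pp_apply, pp_apply, Pi.neg_apply, ← zpow_natCast, ← zpow_natCast, ← zpow_add₀ (hF i)]
  congr 1
  have := toNat_sub (a i)
  omega

theorem wt_pp (w a : σ → ℤ) : wt w (pp a) - wt w (pp (-a)) = ∑ i, a i * w i := by
  rw [wt_eq, wt_eq, ← Finset.sum_sub_distrib]
  refine Finset.sum_congr rfl fun i _ => ?_
  rw [pp_apply, pp_apply, Pi.neg_apply, ← sub_mul, toNat_sub]

theorem deg_pp (a : σ → ℤ) : ((pp a).degree : ℤ) - ((pp (-a)).degree : ℤ) = ∑ i, a i := by
  rw [Finsupp.degree_eq_sum, Finsupp.degree_eq_sum]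
  push_cast
  rw [← Finset.sum_sub_distrib]
  refine Finset.sum_congr rfl fun i _ => ?_
  rw [pp_apply, pp_apply, Pi.neg_apply, toNat_sub]

theorem deg_pp' {a : σ → ℤ} (ha : ∑ i, a i = 0) : (pp a).degree = (pp (-a)).degree := by
  have := deg_pp a
  rw [ha] at this
  omega

theorem lm_mem {F : σ → K} (hF : ∀ i, F i ≠ 0) (w a : σ → ℤ) (ha : ∑ i, a i = 0)
    (haw : 0 ≤ ∑ i, a i * w i) : lm F a ∈ OO k F w := by
  refine ⟨pp (-a), monomial (pp a) 1, ?_, ?_⟩
  · intro b hb
    obtain ⟨h1, h2⟩ := goodP_monomial w (pp a) (1 : k) b hb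
    rw [h1, deg_pp' ha]
    refine ⟨rfl, le_trans ?_ h2⟩
    have := wt_pp w a
    omega
  · rw [lm_mul hF, aeval_mono, map_one, one_mul]

theorem lm_neg_notMem {F : σ → K} (hF : ∀ i, F i ≠ 0) (w a : σ → ℤ) (ha : ∑ i, a i = 0)
    (haw : 0 < ∑ i, a i * w i) (hw : HTrop k F w) : lm F (-a) ∉ OO k F w := by
  rintro ⟨c, P, hP, h⟩
  have h1 := lm_mul hF (-a)
  rw [neg_neg] at h1
  have hw1 := wt_pp w a
  have hd1 := deg_pp' ha
  have hQ : GoodP w (c.degree + (pp a).degree) (wt w c + wt w (pp a)) (P * monomial (pp a) 1) :=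
    hP.mul (goodP_monomial w (pp a) 1)
  have hlt : wt w (pp (-a) + c) < wt w c + wt w (pp a) := by
    rw [wt_add]
    omega
  have hc0 : coeff (pp (-a) + c) (P * monomial (pp a) 1) = 0 := by
    by_contra hne
    exact absurd (hQ _ hne).2 (not_le.mpr hlt)
  have hmem : monomial (pp (-a) + c) 1 - P * monomial (pp a) 1 ∈
      Jr k F (c.degree + (pp a).degree) := by
    refine ⟨fun b hb => ?_, ?_⟩
    · by_cases hb1 : coeff b (P * monomial (pp a) 1) = 0
      · rw [coeff_sub, hb1, sub_zero, coeff_monomial] at hb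
        by_cases hb2 : pp (-a) + c = b
        · rw [← hb2, map_add, hd1, add_comm]
        · rw [if_neg hb2] at hb
          exact absurd rfl hb
      · exact (hQ b hb1).1
    · rw [map_sub, map_mul, aeval_mono, aeval_mono, map_one, one_mul, one_mul, ← h, mo_add, ← h1]
      ring
  have hne : coeff (pp (-a) + c) (monomial (pp (-a) + c) 1 - P * monomial (pp a) 1) ≠ 0 := by
    rw [coeff_sub, hc0, sub_zero, coeff_monomial, if_pos rfl]
    exact one_ne_zero
  obtain ⟨b, hb, hba, hbw⟩ := hw _ _ hmem _ hne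
  rw [coeff_sub, coeff_monomial, if_neg fun h => hba h.symm, zero_sub, neg_ne_zero] at hb
  exact absurd (lt_of_le_of_lt hbw hlt) (not_lt.mpr (hQ b hb).2)

theorem lm_add {F : σ → K} (hF : ∀ i, F i ≠ 0) (a b : σ → ℤ) : lm F (a + b) = lm F a * lm F b := by
  unfold lm
  rw [← Finset.prod_mul_distrib]
  exact Finset.prod_congr rfl fun i _ => zpow_add₀ (hF i) _ _

theorem lm_neg (F : σ → K) (a : σ → ℤ) : lm F (-a) = (lm F a)⁻¹ := by
  unfold lm
  rw [← Finset.prod_inv_distrib]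
  exact Finset.prod_congr rfl fun i _ => zpow_neg _ _

theorem lm_smul (F : σ → K) (n : ℤ) (a : σ → ℤ) : lm F (n • a) = lm F a ^ n := by
  unfold lm
  rw [← Finset.prod_zpow]
  refine Finset.prod_congr rfl fun i _ => ?_
  rw [Pi.smul_apply, smul_eq_mul, mul_comm, zpow_mul]

theorem lm_single (F : σ → K) (i : σ) : lm F (Pi.single i 1) = F i := by
  unfold lm
  rw [Finset.prod_eq_single i]
  · rw [Pi.single_eq_same, zpow_one]
  · intro j _ hj
    rw [Pi.single_eq_of_ne hj, zpow_zero]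
  · intro h
    exact absurd (Finset.mem_univ i) h

theorem lm_ne {F : σ → K} (hF : ∀ i, F i ≠ 0) (a : σ → ℤ) : lm F a ≠ 0 :=
  Finset.prod_ne_zero_iff.mpr fun i _ => zpow_ne_zero _ (hF i)

/-- The valuation of a primitive integral tropical point. -/
theorem real_int {F : σ → K} (hF : ∀ i, F i ≠ 0) (o : σ) (ho : F o = 1)
    (hgen : IntermediateField.adjoin k (Set.range F) = ⊤) (n a : σ → ℤ) (hno : n o = 0)
    (ha : ∑ i, a i = 0) (han : ∑ i, a i * n i = 1) (hn : HTrop k F n) :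
    ∃ V : K → ℤ, F2Ch.IsV V ∧ F2Ch.Triv k V ∧ ∃ M : ℤ, 0 < M ∧ ∀ i, V (F i) = n i * M := by
  set π : K := lm F a with hπ
  have hπ0 : π ≠ 0 := lm_ne hF a
  let ex : σ → σ → ℤ := fun i => Pi.single i 1 + ((- n i) • a + -Pi.single o 1)
  have hsum : ∀ i : σ, ∑ j, (Pi.single i 1 : σ → ℤ) j = 1 := fun i => by
    rw [Finset.sum_pi_single']
    exact if_pos (Finset.mem_univ i)
  have hsumw : ∀ i : σ, ∑ j, (Pi.single i 1 : σ → ℤ) j * n j = n i := fun i => by
    rw [Finset.sum_eq_single i]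
    · rw [Pi.single_eq_same, one_mul]
    · intro j _ hj
      rw [Pi.single_eq_of_ne hj, zero_mul]
    · intro h
      exact absurd (Finset.mem_univ i) h
  have hex0 : ∀ i, ∑ j, ex i j = 0 := by
    intro i
    simp only [ex, Pi.add_apply, Pi.smul_apply, Pi.neg_apply, smul_eq_mul, Finset.sum_add_distrib,
      Finset.sum_neg_distrib, ← Finset.mul_sum, hsum, ha]
    ring
  have hexw : ∀ i, ∑ j, ex i j * n j = 0 := by
    intro i
    simp only [ex, Pi.add_apply, Pi.smul_apply, Pi.neg_apply, smul_eq_mul, add_mul, neg_mul,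
      Finset.sum_add_distrib, Finset.sum_neg_distrib, mul_assoc, ← Finset.mul_sum, hsumw, han, hno]
    ring
  let u : σ → K := fun i => lm F (ex i)
  have hu0 : ∀ i, u i ≠ 0 := fun i => lm_ne hF _
  have hFu : ∀ i, F i = u i * π ^ n i := by
    intro i
    simp only [u, ex]
    rw [lm_add hF, lm_add hF, lm_neg, lm_single, lm_single, ho, inv_one, mul_one, lm_smul, ← hπ,
      mul_assoc, ← zpow_add₀ hπ0, neg_add_cancel, zpow_zero, mul_one]
  let G : Set K := {π} ∪ (Set.range u ∪ Set.range fun i => (u i)⁻¹)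
  have hGfin : G.Finite := (Set.finite_singleton _).union
    ((Set.finite_range _).union (Set.finite_range _))
  let E : Subalgebra k K := Algebra.adjoin k G
  have hEfg : E.FG := ⟨hGfin.toFinset, by rw [Set.Finite.coe_toFinset]⟩
  have hEO : E ≤ OO k F n := by
    refine Algebra.adjoin_le ?_
    rintro x (hx | ⟨i, rfl⟩ | ⟨i, rfl⟩)
    · rw [Set.mem_singleton_iff.mp hx]
      exact lm_mem hF n a ha (by rw [han]; exact zero_le_one)
    · exact lm_mem hF n _ (hex0 i) (hexw i).ge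
    · show (lm F (ex i))⁻¹ ∈ OO k F n
      rw [← lm_neg]
      refine lm_mem hF n _ ?_ ?_
      · simp only [Pi.neg_apply, Finset.sum_neg_distrib, hex0, neg_zero]
      · simp only [Pi.neg_apply, neg_mul, Finset.sum_neg_distrib, hexw, neg_zero, le_refl]
  have hπE : π ∈ E := Algebra.subset_adjoin (Or.inl rfl)
  have huE : ∀ i, u i ∈ E := fun i => Algebra.subset_adjoin (Or.inr (Or.inl ⟨i, rfl⟩))
  have huE' : ∀ i, (u i)⁻¹ ∈ E := fun i => Algebra.subset_adjoin (Or.inr (Or.inr ⟨i, rfl⟩))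
  have hzE : π⁻¹ ∉ E := by
    intro h
    have h1 := hEO h
    rw [hπ, ← lm_neg] at h1
    exact lm_neg_notMem hF n a ha (by rw [han]; exact one_pos) hn h1
  have hfrac : IntermediateField.adjoin k (E : Set K) = ⊤ := by
    rw [eq_top_iff, ← hgen, IntermediateField.adjoin_le_iff]
    rintro _ ⟨i, rfl⟩
    rw [hFu i]
    exact mul_mem (IntermediateField.subset_adjoin _ _ (huE i))
      (zpow_mem (IntermediateField.subset_adjoin k (E : Set K) hπE) _)
  obtain ⟨V, hV, hVt, hVE, hVz⟩ := exists_val E hEfg hfrac (inv_ne_zero hπ0)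
    (by rw [inv_inv]; exact hπE) hzE
  rw [v_inv hV hπ0] at hVz
  refine ⟨V, hV, hVt, V π, by omega, fun i => ?_⟩
  have h1 := hVE _ (huE i) (hu0 i)
  have h2 := hVE _ (huE' i) (inv_ne_zero (hu0 i))
  rw [v_inv hV (hu0 i)] at h2
  have h3 : V (u i) = 0 := by omega
  have h4 := hV.mul (u i) (π ^ n i) (hu0 i) (zpow_ne_zero _ hπ0)
  rw [← hFu i, v_zpow hV hπ0, h3, zero_add, smul_eq_mul] at h4
  exact h4

/-- a rational vector as a multiple of a primitive integral vector -/
theorem exists_prim (w : σ → ℚ) (hw : ∃ i, w i ≠ 0) :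
    ∃ (p q : ℕ) (n a : σ → ℤ), 0 < p ∧ 0 < q ∧ (∀ i, w i * q = p * n i) ∧
      ∑ i, a i * n i = 1 := by
  set q : ℕ := ∏ i, (w i).den with hq
  have hq0 : 0 < q := Finset.prod_pos fun i _ => (w i).pos
  have hm : ∀ i, ∃ m : ℤ, w i * q = m := by
    intro i
    obtain ⟨r, hr⟩ : (w i).den ∣ q := Finset.dvd_prod_of_mem (fun i => (w i).den) (Finset.mem_univ i)
    refine ⟨r * (w i).num, ?_⟩
    rw [hr]
    have h1 : w i * (w i).den = (w i).num := Rat.mul_den_eq_num (w i)
    push_cast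
    rw [← h1]
    ring
  choose m hm using hm
  obtain ⟨g, hg⟩ := (IsPrincipalIdealRing.principal (Ideal.span (Set.range m))).principal
  have hmg : ∀ i, ∃ t : ℤ, m i = g * t := by
    intro i
    have h1 : m i ∈ Ideal.span (Set.range m) := Ideal.subset_span ⟨i, rfl⟩
    rw [hg] at h1
    obtain ⟨t, ht⟩ := Submodule.mem_span_singleton.mp h1
    exact ⟨t, by rw [← ht, smul_eq_mul, mul_comm]⟩
  choose t ht using hmg
  have hg1 : g ∈ Ideal.span (Set.range m) := by
    rw [hg]
    exact Submodule.mem_span_singleton_self g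
  obtain ⟨c, hc⟩ := Ideal.mem_span_range_iff_exists_fun.mp hg1
  have hg0 : g ≠ 0 := by
    rintro rfl
    obtain ⟨i, hi⟩ := hw
    apply hi
    have h1 := hm i
    rw [ht i, zero_mul, Int.cast_zero] at h1
    rcases mul_eq_zero.mp h1 with h2 | h2
    · exact h2
    · exact absurd h2 (by exact_mod_cast hq0.ne')
  have hs : ((g.natAbs : ℕ) : ℤ) = g.sign * g := by
    rw [Int.sign_mul_self_eq_natAbs]
  have hs2 : g.sign * g.sign = 1 := by
    rcases lt_or_gt_of_ne hg0 with h | h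
    · rw [Int.sign_eq_neg_one_of_neg h]; rfl
    · rw [Int.sign_eq_one_of_pos h]; rfl
  refine ⟨g.natAbs, q, fun i => g.sign * t i, fun i => g.sign * c i, Int.natAbs_pos.mpr hg0, hq0,
    fun i => ?_, ?_⟩
  · rw [hm i]
    have h1 : m i = (g.natAbs : ℤ) * (g.sign * t i) := by
      rw [hs, ht i]
      linear_combination -(g * t i) * hs2
    have h2 := congrArg (Int.cast : ℤ → ℚ) h1
    rw [Int.cast_mul, Int.cast_natCast] at h2
    exact h2
  · have h1 : g * ∑ i, g.sign * c i * (g.sign * t i) = g * 1 := by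
      rw [mul_one]
      conv_rhs => rw [← hc]
      rw [Finset.mul_sum]
      refine Finset.sum_congr rfl fun i _ => ?_
      rw [ht i]
      linear_combination (g * t i * c i) * hs2
    exact mul_left_cancel₀ hg0 h1

/-- The valuation of a rational tropical point. -/
theorem real_rat {F : σ → K} (hF : ∀ i, F i ≠ 0) (o : σ) (ho : F o = 1)
    (hgen : IntermediateField.adjoin k (Set.range F) = ⊤) (w : σ → ℚ) (hwo : w o = 0)
    (hw : HTrop k F w) :
    ∃ V : K → ℤ, F2Ch.IsV V ∧ F2Ch.Triv k V ∧ ∃ N : ℕ, 0 < N ∧ ∀ i, (V (F i) : ℚ) = N * w i := by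
  by_cases hw0 : ∃ i, w i ≠ 0
  swap
  · push Not at hw0
    refine ⟨fun _ => 0, ⟨rfl, fun _ _ _ _ => rfl, fun _ _ _ _ _ => min_le_left _ _⟩, fun _ => rfl,
      1, one_pos, fun i => ?_⟩
    rw [hw0 i, mul_zero, Int.cast_zero]
  obtain ⟨p, q, n, a', hp, hq, hn, ha'⟩ := exists_prim w hw0
  have hpQ : (0 : ℚ) < p := by exact_mod_cast hp
  have hqQ : (0 : ℚ) < q := by exact_mod_cast hq
  have hno : n o = 0 := by
    have h1 := hn o
    rw [hwo, zero_mul] at h1
    have h2 : (n o : ℚ) = 0 := by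
      rcases mul_eq_zero.mp h1.symm with h | h
      · exact absurd h hpQ.ne'
      · exact h
    exact_mod_cast h2
  let a : σ → ℤ := a' + (-(∑ i, a' i)) • Pi.single o 1
  have ha : ∑ i, a i = 0 := by
    have h1 : ∑ j, (Pi.single o 1 : σ → ℤ) j = 1 := by
      rw [Finset.sum_pi_single']
      exact if_pos (Finset.mem_univ o)
    simp only [a, Pi.add_apply, Pi.smul_apply, smul_eq_mul, Finset.sum_add_distrib,
      ← Finset.mul_sum, h1]
    ring
  have han : ∑ i, a i * n i = 1 := by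
    have h1 : ∑ j, (Pi.single o 1 : σ → ℤ) j * n j = 0 := by
      refine Finset.sum_eq_zero fun j _ => ?_
      by_cases hj : j = o
      · rw [hj, hno, mul_zero]
      · rw [Pi.single_eq_of_ne hj, zero_mul]
    simp only [a, Pi.add_apply, Pi.smul_apply, smul_eq_mul, add_mul, Finset.sum_add_distrib,
      mul_assoc, ← Finset.mul_sum, h1, ha']
    ring
  have hwt : ∀ b : σ →₀ ℕ, wt w b * q = p * wt n b := by
    intro b
    unfold wt
    rw [Finsupp.weight_eq_sum, Finsupp.weight_eq_sum, Finset.sum_mul]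
    push_cast
    rw [Finset.mul_sum]
    refine Finset.sum_congr rfl fun i _ => ?_
    rw [nsmul_eq_mul, nsmul_eq_mul, mul_assoc, hn i]
    push_cast
    ring
  have hnT : HTrop k F n := by
    intro D g hg b hb
    obtain ⟨b', h1, h2, h3⟩ := hw D g hg b hb
    refine ⟨b', h1, h2, ?_⟩
    have h4 : wt w b' * q ≤ wt w b * q := mul_le_mul_of_nonneg_right h3 hqQ.le
    rw [hwt, hwt] at h4
    exact_mod_cast le_of_mul_le_mul_left h4 hpQ
  obtain ⟨V, hV, hVt, M, hM, hVF⟩ := real_int hF o ho hgen n a hno ha han hnT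
  refine ⟨fun x => (p : ℤ) * V x, ⟨?_, fun x y hx hy => ?_, fun x y hx hy hxy => ?_⟩, fun c => ?_,
    q * M.toNat, Nat.mul_pos hq (by omega), fun i => ?_⟩
  · show (p : ℤ) * V 0 = 0
    rw [hV.zero, mul_zero]
  · show (p : ℤ) * V (x * y) = p * V x + p * V y
    rw [hV.mul x y hx hy, mul_add]
  · show min ((p : ℤ) * V x) (p * V y) ≤ p * V (x + y)
    have h1 := hV.add x y hx hy hxy
    have hp' : (0 : ℤ) ≤ p := by positivity
    rcases min_le_iff.mp h1 with h2 | h2
    · exact min_le_iff.mpr (Or.inl (mul_le_mul_of_nonneg_left h2 hp'))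
    · exact min_le_iff.mpr (Or.inr (mul_le_mul_of_nonneg_left h2 hp'))
  · show (p : ℤ) * V _ = 0
    rw [hVt c, mul_zero]
  · show (((p : ℤ) * V (F i) : ℤ) : ℚ) = _
    have h1 : ((M.toNat : ℕ) : ℤ) = M := Int.toNat_of_nonneg hM.le
    have h2 : ((M.toNat : ℕ) : ℚ) = (M : ℚ) := by
      have h3 := congrArg (Int.cast : ℤ → ℚ) h1
      rwa [Int.cast_natCast] at h3
    rw [hVF i]
    push_cast
    rw [h2]
    linear_combination -(M : ℚ) * hn i

end

end Pool.Agent.FrA
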